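import Mathlib
import Pool.Agent.H554R2.Lin.Final

/-!
# A constant number of guesses, and a constant factor of time, against exponential space

The model is that of the nonuniform versions of `L` and `NL`: deterministic branching programs, where
`2 ^ s` nodes stand for space `s` and the number of queries for the time; a nondeterministic program
with `log m` guesses at the beginning is a disjunction of `m` deterministic ones.

For every `k` there are a constant `D` and functions `f` of `n` variables such that

* `f` is the disjunction of `m ≤ D` functions, each of them computed by a program with `4 (n + 1)`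
  nodes that reads the variables of a list `l j` without repetitions in this order, on all inputs
  (so `f` has a one-pass nondeterministic computation with a constant number of guesses and
  `O(log n)` space);
* `f` is computed by a deterministic program with `D (n + 1)` nodes which reads every variable at
  most `D` times on every input;
* every deterministic program with fewer than `2 ^ (n / D)` nodes which never outputs `false` on an
  input `x` with `f x = true` outputs `false` within `k n` queries on less than the fraction
  `2 ^ (- n / D)` of the inputs with `f x = false`; in particular a program for `f` in time `k n`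
  has at least `2 ^ (n / D)` nodes.

The theorem is `final` of the starting file `Pool/Agent/H554R2/Lin/Final.lean`, which had not been
handed in. The functions are disjunctions of random quadratic forms in few blocks and of their
negations; the treatment of programs of length `k n` by rectangles is that of Ajtai and of Beame,
Saks, Sun and Vee.
-/

set_option autoImplicit false

namespace Pool.Agent.Results.MP_e46137_lc.ConstantGuessesLinearTime

open Pool.Agent.H554R2.Sem Pool.Agent.H554R2.Coin

/-- The program `P` reads, on every input, the variables of the list `l` in this order, and computes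
`g`. -/
def Reads {n : ℕ} (P : BP (Fin n) Bool) (l : List (Fin n)) (g : Pt n → Bool) : Prop :=
  ∀ x, P.Comp x l (g x)

theorem result (k : ℕ) : ∃ D : ℕ, 0 < D ∧ ∀ n ≥ D, ∃ f : Pt n → Bool,
    (∃ (m : ℕ) (g : Fin m → Pt n → Bool) (U : Fin m → BP (Fin n) Bool)
      (l : Fin m → List (Fin n)), m ≤ D ∧
      (∀ j, Fintype.card (U j).State = 4 * (n + 1) ∧ (l j).Nodup ∧ Reads (U j) (l j) (g j)) ∧
      ∀ x, f x = true ↔ ∃ j, g j x = true) ∧
    (∃ P : BP (Fin n) Bool, Fintype.card P.State ≤ D * (n + 1) ∧
      ∀ x, ∃ L : List (Fin n), (∀ i, L.count i ≤ D) ∧ P.Comp x L (f x)) ∧
    ∀ P : BP (Fin n) Bool, Fintype.card P.State < 2 ^ (n / D) →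
      (∀ x, f x = true → ¬ ∃ l, P.Comp x l false) →
      2 ^ (n / D) * Nat.card {x // ∃ l, P.Comp x l false ∧ l.length ≤ k * n} <
        Nat.card {x // f x = false} := by
  obtain ⟨D, hD, h⟩ := Pool.Agent.H554R2.Lin.final k
  refine ⟨D, hD, fun n hn => ?_⟩
  obtain ⟨f, m, U, l, hm, hU, hf, hP, hlow⟩ := h n hn
  refine ⟨f, ?_, hP, hlow⟩
  choose b hb using hf
  refine ⟨m, fun j x => b x j, U, l, hm, fun j => ⟨(hU j).1, (hU j).2, fun x => (hb x).1 j⟩,
    fun x => (hb x).2⟩

end Pool.Agent.Results.MP_e46137_lc.ConstantGuessesLinearTime
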