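import Pool.Agent.TH679.PL.Main
import Pool.Agent.TH679.PL.Upper
import Pool.Agent.TH679.PL.Asym

/-!
# Shortest paths in planar graphs with few registers

For directed graphs whose drawing in the plane has no crossings reachability can be decided in
polynomial time with space about `√N`, `N` being the number of vertices, and in space `O(log² N)`
with time `N ^ O(log N)` (Savitch). We show that nothing in between is possible for pure dynamic
programs, which compute the length of a shortest path step by step with a few registers, which hold
real numbers or infinity, using the operations `min` and `+` (a step also can load a weight or a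
constant; the program may depend on the graph in any way): there are planar layered graphs (strips)
such that with `N ^ (1/2 - ε)` registers `N ^ Ω(log N)` steps are necessary, but with `√N` registers
`5 N` steps are enough. The same holds for programs over the nonnegative real numbers with `+` and
`*`, for the sum over all paths of the products of the weights.

The strip has the vertices `(c, v)` with `0 ≤ c ≤ T` and `0 ≤ v < m`. From `(c, v)` an edge leads to
`(c + 1, v)`; another one leads to `(c + 1, v + 1)` if `c` is even, and to `(c + 1, v - 1)` if `c` is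
odd. In `2 m` columns each vertex can be reached from each vertex, but from a point on the path
between `(2 m l, a)` and `(2 m (l + 1), b)` the label `a` or the label `b` is known up to three
possibilities. This is used in the following way: a register which holds parts of the path for
several families of labels always holds parts with the same set of columns, and with the same
vertices at the ends of the intervals of this set. Recursion over the intervals of time and over
windows of labels, where in each step the window is divided by the parts of one register which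
contains some, but not all of the columns of the window, gives the bound
`m ^ κ ≤ 2 L (3 (⌈log₂ L⌉ + 1) K) ^ κ` for `K` registers and `L` steps, with
`κ = ⌈log₄ (n + 3)⌉ - 1`, for `T ≥ 2 m n`.
-/

set_option autoImplicit false

namespace Pool.Agent.Results.MP_e46137_lc.PlanarShortestPaths

open Filter
open Pool.Agent.TH679.PL
open Pool.Agent.H564R3.PW (Instr exec)
open scoped NNReal

/-- (1) The drawing of the strip with straight lines has no crossings (`point e t`, for
`0 < t < 1`, are the inner points of the edge `e`).

(2) The law: for a strip with `m` rows and `T ≥ 2 m n` steps, a program with the registers `ρ` which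
computes the length of a shortest path from the first to the last column for all weights in the
natural numbers (or the sum over the paths of the products of the weights, for all nonnegative real
weights) satisfies `m ^ κ ≤ 2 * steps * (3 * (⌈log₂ steps⌉ + 1) * registers) ^ κ` with
`κ = ⌈log₄ (n + 3)⌉ - 1`.

(3) Over each commutative semiring `m + 1` registers and `5 T m + 2 m + 1` steps are enough.

(4) For each `ε` there is `c > 0` such that for all large `m` there is a strip with `m` rows and `N`
vertices (`N ≥ m`) for which programs with at most `N ^ (1/2 - ε)` registers have at least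
`N ^ (c log₂ N)` steps, but there is a program with at most `√N` registers and `5 N` steps. -/
theorem result :
    (∀ (T m : ℕ) (e e' : Edge T m), e ≠ e' → ∀ t t' : ℝ, 0 < t → t < 1 → 0 < t' → t' < 1 →
      point e t ≠ point e' t') ∧
    (∀ (T m n : ℕ), 1 ≤ n → 1 ≤ m → 2 * m * n ≤ T →
      ∀ (ρ : Type) [Fintype ρ] [DecidableEq ρ] (o : ρ),
        (∀ p : List (Instr (Tropical (WithTop ℝ)) (Edge T m) ρ), SolvesMin p o →
          m ^ (Nat.clog 4 (n + 3) - 1) ≤ 2 * p.length *
            ((Nat.clog 2 p.length + 1) * (3 * Fintype.card ρ)) ^ (Nat.clog 4 (n + 3) - 1)) ∧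
        (∀ p : List (Instr ℝ≥0 (Edge T m) ρ), SolvesSum p o →
          m ^ (Nat.clog 4 (n + 3) - 1) ≤ 2 * p.length *
            ((Nat.clog 2 p.length + 1) * (3 * Fintype.card ρ)) ^ (Nat.clog 4 (n + 3) - 1))) ∧
    (∀ (R : Type) [CommSemiring R] (T m : ℕ),
      ∃ p : List (Instr R (Edge T m) (Option (Fin m))), p.length ≤ 5 * (T * m) + 2 * m + 1 ∧
        ∀ w : Edge T m → R, exec w p none = pathSum w) ∧
    (∀ ε : ℝ, 0 < ε → ε ≤ 1 / 2 → ∃ c : ℝ, 0 < c ∧ ∀ᶠ m : ℕ in atTop, ∃ T N : ℕ,
      N = Fintype.card (Fin (T + 1) × Fin m) ∧ m ≤ N ∧
      (∀ (ρ : Type) [Fintype ρ] [DecidableEq ρ] (o : ρ),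
        (Fintype.card ρ : ℝ) ≤ (N : ℝ) ^ (1 / 2 - ε) →
        (∀ p : List (Instr (Tropical (WithTop ℝ)) (Edge T m) ρ), SolvesMin p o →
          (N : ℝ) ^ (c * Real.logb 2 N) ≤ p.length) ∧
        (∀ p : List (Instr ℝ≥0 (Edge T m) ρ), SolvesSum p o →
          (N : ℝ) ^ (c * Real.logb 2 N) ≤ p.length)) ∧
      (∀ (R : Type) [CommSemiring R],
        ∃ (ρ : Type) (_ : Fintype ρ) (_ : DecidableEq ρ) (o : ρ)
          (p : List (Instr R (Edge T m) ρ)), (Fintype.card ρ : ℝ) ≤ Real.sqrt N ∧
          p.length ≤ 5 * N ∧ ∀ w : Edge T m → R, exec w p o = pathSum w)) := by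
  refine ⟨?_, ?_, ?_, ?_⟩
  · intro T m e e' h t t' h1 h2 h3 h4
    exact planar e e' h t t' h1 h2 h3 h4
  · intro T m n hn hm hT ρ _ _ o
    exact ⟨fun p h => (lawMin hn hm hT p o h).2, fun p h => (lawSum hn hm hT p o h).2⟩
  · intro R _ T m
    exact upper R T m
  · intro ε hε hε2
    obtain ⟨l₀, hl₀⟩ := exists_large ε hε
    refine ⟨ε ^ 2 / 36, by positivity, ?_⟩
    have hlog : ∀ᶠ m : ℕ in atTop, l₀ ≤ Real.logb 2 m :=
      ((Real.tendsto_logb_atTop (by norm_num : (1 : ℝ) < 2)).comp
        tendsto_natCast_atTop_atTop).eventually_ge_atTop l₀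
    filter_upwards [hlog, eventually_ge_atTop 2] with m hml hm2
    have hm : 1 ≤ m := by omega
    obtain ⟨n, hn⟩ : ∃ n, n = ⌈(m : ℝ) ^ ε⌉₊ := ⟨_, rfl⟩
    have hm1 : (1 : ℝ) ≤ m := by exact_mod_cast hm
    have hn1 : 1 ≤ n := by
      rw [hn, Nat.one_le_ceil_iff]
      positivity
    have hcard : Fintype.card (Fin (2 * m * n + 1) × Fin m) = (2 * m * n + 1) * m := by
      rw [Fintype.card_prod, Fintype.card_fin, Fintype.card_fin]
    refine ⟨2 * m * n, (2 * m * n + 1) * m, hcard.symm, ?_, ?_, ?_⟩
    · calc m = 1 * m := (one_mul m).symm
        _ ≤ (2 * m * n + 1) * m := Nat.mul_le_mul_right _ (by omega)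
    · intro ρ _ _ o hK
      refine ⟨fun p h => ?_, fun p h => ?_⟩
      · obtain ⟨h1, h2⟩ := lawMin hn1 hm le_rfl p o h
        exact steps_ge hε hε2 hl₀ hm hml hn rfl h1 hK h2
      · obtain ⟨h1, h2⟩ := lawSum hn1 hm le_rfl p o h
        exact steps_ge hε hε2 hl₀ hm hml hn rfl h1 hK h2
    · intro R _
      obtain ⟨p, h1, h2⟩ := upper R (2 * m * n) m
      refine ⟨Option (Fin m), inferInstance, inferInstance, none, p, ?_, ?_, h2⟩
      · rw [Fintype.card_option, Fintype.card_fin]
        refine Real.le_sqrt_of_sq_le ?_
        have h3 : (m + 1) ^ 2 ≤ (2 * m * n + 1) * m := by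
          have h4 : m * m * 1 ≤ m * m * n := Nat.mul_le_mul_left _ hn1
          have h5 : 2 * m ≤ m * m := Nat.mul_le_mul_right _ hm2
          nlinarith
        exact_mod_cast h3
      · refine h1.trans ?_
        have : 5 * ((2 * m * n + 1) * m) = 5 * (2 * m * n * m) + 5 * m := by ring
        omega

end Pool.Agent.Results.MP_e46137_lc.PlanarShortestPaths
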