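import Pool.Agent.TH706.SK.Paths

/-!
# Shortest paths with few registers and a stack of unlimited height

Machines with logarithmic memory and, in addition, a stack (pushdown store) of unlimited height
accept in polynomial time the languages which are logspace reducible to deterministic context-free
languages (LogDCFL); it is not known whether NL is contained in this class. We consider pure dynamic
programs, that is straight-line programs which compute the length of a shortest path step by step
with `K` registers, which hold real numbers or infinity, using `min` and `+` (they may depend on the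
graph in any way), and we add a stack: a step may also put the contents of a register on the stack,
or remove the top of the stack and put it into a register.

The stack can be removed (`Pool.Agent.TH706.SK.simulate`): a program with `K` registers, a stack and
`L < 2 ^ n` steps, over any commutative semiring, is simulated by one without a stack with
`K (n + 1) ^ 2` registers and `(48 K + 16) L ^ 3` steps. This is an analogue of the theorem of Cook
that deterministic context-free languages are accepted in polynomial time with `O(log ^ 2 n)` space.
The simulation: a properly nested program is divided by its heavy path; the registers at one point of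
the first half of the path are kept, and the symbols which are needed in the second half are
recomputed in the opposite order, by recursion over a division of the path into two parts of at most
half the weight and one step in between.

So even with a stack of unlimited height Savitch's recursion and the algorithm of Barnes, Buss,
Ruzzo and Schieber cannot be improved by pure dynamic programs: for layered graphs of degree two
with `N` vertices `N ^ (1 - ε)` registers and a stack need `N ^ Ω(log N)` steps, and in polynomial
time `N / 2 ^ O(√log N)` registers are necessary. Without a stack `N ^ (1 - ε / 8)` registers,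
or `N / 2 ^ (√log N / 2)` registers, and `7 N` steps are sufficient, respectively.

The bounds for programs without a stack and the graphs are those of helper679
(`Pool.Agent.TH679.DB`, see `SparseShortestPaths`).
-/

set_option autoImplicit false

namespace Pool.Agent.Results.MP_e46137_lc.SavitchWithStack

open Filter
open Pool.Agent.TH706.SK
open Pool.Agent.TH679.DB
open Pool.Agent.H564R3.PW (Instr exec)
open scoped NNReal

/-- (1) The law: in the graph with the columns `0, ..., T` and the words of length `d` over `m` letters,
`T ≥ d n`, if a program with the registers `ρ`, a stack and `L` instructions computes the length of a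
shortest path for all weights in the natural numbers (or the sum over the paths of the products of
the weights, for all nonnegative real weights), then
`(m ^ d) ^ κ ≤ 2 L' ((⌈log₂ L'⌉ + 1) K') ^ κ` with `κ = ⌈log₄ (n + 3)⌉ - 1`,
`L' = (48 K + 16) L ^ 3` and `K' = K (⌈log₂ (L + 1)⌉ + 1) ^ 2`, `K` being the number of registers.

(2) For each `ε` there is `c > 0` such that for all large `d` and the graph with the words of length
`d` over two letters and `T = d ⌈2 ^ (ε d / 4)⌉`, with `N` vertices, programs with at most
`N ^ (1 - ε)` registers and a stack have at least `N ^ (c log₂ N)` instructions, but there is a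
program with at most `N ^ (1 - ε / 8)` registers and `7 N` instructions without a stack.

(3) For `T = d 2 ^ ⌈√d⌉`: for each `a` there is `C` such that for all large `d` programs with a stack
and at most `N ^ a` instructions have at least `N / 2 ^ (C √log₂ N)` registers, but there is a program
without a stack with at most `N / 2 ^ (√log₂ N / 2)` registers and at most `7 N` instructions. -/
theorem result :
    (∀ (T d m n : ℕ), 1 ≤ n → 1 ≤ m → 1 ≤ d → d * n ≤ T →
      ∀ (ρ : Type) [Fintype ρ] [DecidableEq ρ] (o : ρ) (L L' K' : ℕ),
        L' = (48 * Fintype.card ρ + 16) * L ^ 3 →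
        K' = Fintype.card ρ * (Nat.clog 2 (L + 1) + 1) ^ 2 →
        ((∃ p : List (SInstr (Tropical (WithTop ℝ)) (Edge T (Shift (m := m) (d := d))) ρ),
          StackMin p o ∧ p.length = L) ∨
        ∃ p : List (SInstr ℝ≥0 (Edge T (Shift (m := m) (d := d))) ρ),
          StackSum p o ∧ p.length = L) →
        (m ^ d) ^ (Nat.clog 4 (n + 3) - 1) ≤
          2 * L' * ((Nat.clog 2 L' + 1) * K') ^ (Nat.clog 4 (n + 3) - 1)) ∧
    (∀ ε : ℝ, 0 < ε → ε ≤ 1 → ∃ c : ℝ, 0 < c ∧ ∀ᶠ d : ℕ in atTop, ∀ T N : ℕ,
      T = d * ⌈(2 : ℝ) ^ (ε / 4 * d)⌉₊ → N = Fintype.card (Fin (T + 1) × Word 2 d) →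
      (∀ (ρ : Type) [Fintype ρ] [DecidableEq ρ] (o : ρ),
        (Fintype.card ρ : ℝ) ≤ (N : ℝ) ^ (1 - ε) →
        (∀ p : List (SInstr (Tropical (WithTop ℝ)) (Edge T (Shift (m := 2) (d := d))) ρ),
          StackMin p o → (N : ℝ) ^ (c * Real.logb 2 N) ≤ p.length) ∧
        (∀ p : List (SInstr ℝ≥0 (Edge T (Shift (m := 2) (d := d))) ρ),
          StackSum p o → (N : ℝ) ^ (c * Real.logb 2 N) ≤ p.length)) ∧
      (∀ (R : Type) [CommSemiring R],
        ∃ (ρ : Type) (_ : Fintype ρ) (_ : DecidableEq ρ) (o : ρ)
          (p : List (Instr R (Edge T (Shift (m := 2) (d := d))) ρ)),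
          (Fintype.card ρ : ℝ) ≤ (N : ℝ) ^ (1 - ε / 8) ∧
          p.length ≤ 7 * N ∧ ∀ w : Edge T (Shift (m := 2) (d := d)) → R,
            exec w p o = pathSum w)) ∧
    (∀ a : ℝ, ∃ C : ℝ, ∀ᶠ d : ℕ in atTop, ∀ T N : ℕ,
      T = d * 2 ^ ⌈Real.sqrt d⌉₊ → N = Fintype.card (Fin (T + 1) × Word 2 d) →
      (∀ (ρ : Type) [Fintype ρ] [DecidableEq ρ] (o : ρ),
        (∀ p : List (SInstr (Tropical (WithTop ℝ)) (Edge T (Shift (m := 2) (d := d))) ρ),
          StackMin p o → (p.length : ℝ) ≤ (N : ℝ) ^ a →
            (N : ℝ) / 2 ^ (C * Real.sqrt (Real.logb 2 N)) ≤ Fintype.card ρ) ∧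
        (∀ p : List (SInstr ℝ≥0 (Edge T (Shift (m := 2) (d := d))) ρ),
          StackSum p o → (p.length : ℝ) ≤ (N : ℝ) ^ a →
            (N : ℝ) / 2 ^ (C * Real.sqrt (Real.logb 2 N)) ≤ Fintype.card ρ)) ∧
      (∀ (R : Type) [CommSemiring R],
        ∃ (ρ : Type) (_ : Fintype ρ) (_ : DecidableEq ρ) (o : ρ)
          (p : List (Instr R (Edge T (Shift (m := 2) (d := d))) ρ)),
          (Fintype.card ρ : ℝ) ≤ (N : ℝ) / 2 ^ (Real.sqrt (Real.logb 2 N) / 2) ∧
          p.length ≤ 7 * N ∧ ∀ w : Edge T (Shift (m := 2) (d := d)) → R,
            exec w p o = pathSum w)) := by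
  refine ⟨?_, ?_, ?_⟩
  · intro T d m n hn hm hd hT ρ _ _ o L L' K' hL' hK' h
    exact law_explicit hn hm hd hT o L h L' K' hL' hK'
  · exact part_time
  · exact part_space

end Pool.Agent.Results.MP_e46137_lc.SavitchWithStack
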