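import Pool.Agent.TH679.DB.Main
import Pool.Agent.TH679.DB.Upper
import Pool.Agent.TH679.DB.Asym

/-!
# Shortest paths in graphs of degree two with few registers

For directed graphs with `N` vertices whose vertices have two successors and two predecessors,
reachability can be decided in polynomial time with space `N / 2 ^ Ω(√log N)` (Barnes, Buss, Ruzzo
and Schieber), and in space `O(log² N)` with time `N ^ O(log N)` (Savitch). We show that pure
dynamic programs, which compute the length of a shortest path step by step with a few registers,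
which hold real numbers or infinity, using the operations `min` and `+` (a step also can load a
weight or a constant; the program may depend on the graph in any way), cannot do better:
there are layered graphs of degree two such that

* with `N ^ (1 - ε)` registers `N ^ Ω(log N)` steps are necessary (but `7 N` steps suffice with
  `N ^ (1 - ε / 4)` registers);
* with `N ^ a` steps at least `N / 2 ^ O(√log N)` registers are necessary (but `N / 2 ^ (√log N / 2)`
  registers and `7 N` steps suffice).

The same holds for programs over the nonnegative real numbers with `+` and `*`, for the sum over all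
paths of the products of the weights.

The vertices of a column are the words of length `d`; there is an edge from a word to a word of the
next column if the second word is the first one without its first letter and with a new last letter.
So a path is a sequence of letters, and each vertex of the path shows `d` consecutive letters. A
register which holds parts of the paths of several sequences always holds parts with the same set
of columns, and with the same vertices at the ends of the intervals of this set. Recursion over the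
intervals of time and over windows of letters, where in each step the window is divided by the parts
of one register which contains some, but not all of the columns of the window, gives the bound
`(m ^ d) ^ κ ≤ 2 L ((⌈log₂ L⌉ + 1) K) ^ κ` for `K` registers and `L` steps, with
`κ = ⌈log₄ (n + 3)⌉ - 1`, for `d n` columns and at least one more.
-/

set_option autoImplicit false

namespace Pool.Agent.Results.MP_e46137_lc.SparseShortestPaths

open Filter
open Pool.Agent.TH679.DB
open Pool.Agent.H564R3.PW (Instr exec)
open scoped NNReal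

theorem out_le {m d : ℕ} (hd : 1 ≤ d) (u : Word m d) :
    (Finset.univ.filter fun v : Word m d => Shift u v).card ≤ m := by
  have h := Finset.card_le_card_of_injOn (s := Finset.univ.filter fun v : Word m d => Shift u v)
    (t := (Finset.univ : Finset (Fin m))) (fun v => v ⟨d - 1, by omega⟩)
    (fun _ _ => Finset.mem_univ _) (by
      intro v hv v' hv' h
      have h1 : Shift u v := (Finset.mem_filter.1 hv).2
      have h2 : Shift u v' := (Finset.mem_filter.1 hv').2
      funext i
      by_cases hi : i.val + 1 < d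
      · rw [h1 i ⟨i.val + 1, hi⟩ rfl, h2 i ⟨i.val + 1, hi⟩ rfl]
      · have h3 : i = ⟨d - 1, by omega⟩ := Fin.ext (by have := i.2; show i.val = d - 1; omega)
        rw [h3]
        exact h)
  rwa [Finset.card_univ, Fintype.card_fin] at h

theorem in_le {m d : ℕ} (hd : 1 ≤ d) (v : Word m d) :
    (Finset.univ.filter fun u : Word m d => Shift u v).card ≤ m := by
  have h := Finset.card_le_card_of_injOn (s := Finset.univ.filter fun u : Word m d => Shift u v)
    (t := (Finset.univ : Finset (Fin m))) (fun u => u ⟨0, by omega⟩)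
    (fun _ _ => Finset.mem_univ _) (by
      intro u hu u' hu' h
      have h1 : Shift u v := (Finset.mem_filter.1 hu).2
      have h2 : Shift u' v := (Finset.mem_filter.1 hu').2
      funext i
      by_cases hi : i.val = 0
      · have h3 : i = ⟨0, by omega⟩ := Fin.ext hi
        rw [h3]
        exact h
      · have h3 := h1 ⟨i.val - 1, by omega⟩ i (by show i.val = i.val - 1 + 1; omega)
        have h4 := h2 ⟨i.val - 1, by omega⟩ i (by show i.val = i.val - 1 + 1; omega)
        rw [← h3, ← h4])
  rwa [Finset.card_univ, Fintype.card_fin] at h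

theorem inE_le {m d T : ℕ} (hd : 1 ≤ d) (k : Fin T) (v : Word m d) :
    (inE (ok := Shift (m := m) (d := d)) k v).card ≤ m := by
  refine le_trans ?_ (in_le hd v)
  refine Finset.card_le_card_of_injOn (fun e => e.1.2.1) ?_ ?_
  · intro e he
    have h1 := (Finset.mem_filter.1 he).2
    refine Finset.mem_filter.2 ⟨Finset.mem_univ _, ?_⟩
    have h2 := e.2
    rw [h1.2] at h2
    exact h2
  · intro e he e' he' h
    obtain ⟨_, h2, h3⟩ := Finset.mem_filter.1 he
    obtain ⟨_, h2', h3'⟩ := Finset.mem_filter.1 he'
    apply Subtype.ext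
    exact Prod.ext (h2.trans h2'.symm) (Prod.ext h (h3.trans h3'.symm))

theorem card_word (m d : ℕ) : Fintype.card (Word m d) = m ^ d := by
  show Fintype.card (Fin d → Fin m) = m ^ d
  rw [Fintype.card_fun, Fintype.card_fin, Fintype.card_fin]

/-- (1) Each vertex has at most `m` successors and at most `m` predecessors.

(2) The law: for `T ≥ d n` a program with the registers `ρ` which computes the length of a shortest
path from the first to the last column for all weights in the natural numbers (or the sum over the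
paths of the products of the weights, for all nonnegative real weights) satisfies
`(m ^ d) ^ κ ≤ 2 * steps * ((⌈log₂ steps⌉ + 1) * registers) ^ κ` with `κ = ⌈log₄ (n + 3)⌉ - 1`.

(3) Over each commutative semiring `2 m ^ d + 1` registers and `(3 m + 1) T m ^ d + 2 m ^ d + 1`
steps are enough.

(4) For each `ε` there is `c > 0` such that for all large `d` and the graph with the words of length
`d` over two letters and `T = d ⌈2 ^ (ε d / 2)⌉`, with `N` vertices, programs with at most
`N ^ (1 - ε)` registers have at least `N ^ (c log₂ N)` steps, but there is a program with at most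
`N ^ (1 - ε / 4)` registers and `7 N` steps.

(5) For `T = d 2 ^ ⌈√d⌉`: for each `a` there is `C` such that for all large `d` programs with at most
`N ^ a` steps have at least `N / 2 ^ (C √log₂ N)` registers; for all large `d` there is a program
with at most `N / 2 ^ (√log₂ N / 2)` registers and at most `7 N` steps. -/
theorem result :
    (∀ (m d : ℕ), 1 ≤ d → ∀ u : Word m d,
      (Finset.univ.filter fun v : Word m d => Shift u v).card ≤ m ∧
      (Finset.univ.filter fun v : Word m d => Shift v u).card ≤ m) ∧
    (∀ (T d m n : ℕ), 1 ≤ n → 1 ≤ m → 1 ≤ d → d * n ≤ T →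
      ∀ (ρ : Type) [Fintype ρ] [DecidableEq ρ] (o : ρ),
        (∀ p : List (Instr (Tropical (WithTop ℝ)) (Edge T (Shift (m := m) (d := d))) ρ),
          SolvesMin p o → (m ^ d) ^ (Nat.clog 4 (n + 3) - 1) ≤ 2 * p.length *
            ((Nat.clog 2 p.length + 1) * Fintype.card ρ) ^ (Nat.clog 4 (n + 3) - 1)) ∧
        (∀ p : List (Instr ℝ≥0 (Edge T (Shift (m := m) (d := d))) ρ),
          SolvesSum p o → (m ^ d) ^ (Nat.clog 4 (n + 3) - 1) ≤ 2 * p.length *
            ((Nat.clog 2 p.length + 1) * Fintype.card ρ) ^ (Nat.clog 4 (n + 3) - 1))) ∧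
    (∀ (R : Type) [CommSemiring R] (T m d : ℕ), 1 ≤ d →
      ∃ p : List (Instr R (Edge T (Shift (m := m) (d := d))) (Option (Bool × Word m d))),
        p.length ≤ (3 * m + 1) * (T * m ^ d) + 2 * m ^ d + 1 ∧
        ∀ w : Edge T (Shift (m := m) (d := d)) → R, exec w p none = pathSum w) ∧
    (∀ ε : ℝ, 0 < ε → ε ≤ 1 → ∃ c : ℝ, 0 < c ∧ ∀ᶠ d : ℕ in atTop, ∀ T N : ℕ,
      T = d * ⌈(2 : ℝ) ^ (ε / 2 * d)⌉₊ → N = Fintype.card (Fin (T + 1) × Word 2 d) →
      (∀ (ρ : Type) [Fintype ρ] [DecidableEq ρ] (o : ρ),
        (Fintype.card ρ : ℝ) ≤ (N : ℝ) ^ (1 - ε) →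
        (∀ p : List (Instr (Tropical (WithTop ℝ)) (Edge T (Shift (m := 2) (d := d))) ρ),
          SolvesMin p o → (N : ℝ) ^ (c * Real.logb 2 N) ≤ p.length) ∧
        (∀ p : List (Instr ℝ≥0 (Edge T (Shift (m := 2) (d := d))) ρ),
          SolvesSum p o → (N : ℝ) ^ (c * Real.logb 2 N) ≤ p.length)) ∧
      (∀ (R : Type) [CommSemiring R],
        ∃ (ρ : Type) (_ : Fintype ρ) (_ : DecidableEq ρ) (o : ρ)
          (p : List (Instr R (Edge T (Shift (m := 2) (d := d))) ρ)),
          (Fintype.card ρ : ℝ) ≤ (N : ℝ) ^ (1 - ε / 4) ∧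
          p.length ≤ 7 * N ∧ ∀ w : Edge T (Shift (m := 2) (d := d)) → R,
            exec w p o = pathSum w)) ∧
    (∀ a : ℝ, ∃ C : ℝ, ∀ᶠ d : ℕ in atTop, ∀ T N : ℕ,
      T = d * 2 ^ ⌈Real.sqrt d⌉₊ → N = Fintype.card (Fin (T + 1) × Word 2 d) →
      (∀ (ρ : Type) [Fintype ρ] [DecidableEq ρ] (o : ρ),
        (∀ p : List (Instr (Tropical (WithTop ℝ)) (Edge T (Shift (m := 2) (d := d))) ρ),
          SolvesMin p o → (p.length : ℝ) ≤ (N : ℝ) ^ a →
            (N : ℝ) / 2 ^ (C * Real.sqrt (Real.logb 2 N)) ≤ Fintype.card ρ) ∧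
        (∀ p : List (Instr ℝ≥0 (Edge T (Shift (m := 2) (d := d))) ρ),
          SolvesSum p o → (p.length : ℝ) ≤ (N : ℝ) ^ a →
            (N : ℝ) / 2 ^ (C * Real.sqrt (Real.logb 2 N)) ≤ Fintype.card ρ)) ∧
      (∀ (R : Type) [CommSemiring R],
        ∃ (ρ : Type) (_ : Fintype ρ) (_ : DecidableEq ρ) (o : ρ)
          (p : List (Instr R (Edge T (Shift (m := 2) (d := d))) ρ)),
          (Fintype.card ρ : ℝ) ≤ (N : ℝ) / 2 ^ (Real.sqrt (Real.logb 2 N) / 2) ∧
          p.length ≤ 7 * N ∧ ∀ w : Edge T (Shift (m := 2) (d := d)) → R,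
            exec w p o = pathSum w)) := by
  have hup : ∀ (R : Type) [CommSemiring R] (T m d : ℕ), 1 ≤ d →
      ∃ p : List (Instr R (Edge T (Shift (m := m) (d := d))) (Option (Bool × Word m d))),
        p.length ≤ (3 * m + 1) * (T * m ^ d) + 2 * m ^ d + 1 ∧
        ∀ w : Edge T (Shift (m := m) (d := d)) → R, exec w p none = pathSum w := by
    intro R _ T m d hd
    have h := upper R T (Shift (m := m) (d := d)) (inE_le hd)
    rwa [card_word] at h
  have hcard : ∀ T d : ℕ, Fintype.card (Fin (T + 1) × Word 2 d) = (T + 1) * 2 ^ d := by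
    intro T d
    rw [Fintype.card_prod, Fintype.card_fin, card_word]
  have hreg : ∀ d : ℕ, Fintype.card (Option (Bool × Word 2 d)) = 2 * 2 ^ d + 1 := by
    intro d
    rw [Fintype.card_option, Fintype.card_prod, Fintype.card_bool, card_word]
  have hlen : ∀ T d : ℕ, (3 * 2 + 1) * (T * 2 ^ d) + 2 * 2 ^ d + 1 ≤ 7 * ((T + 1) * 2 ^ d) := by
    intro T d
    have h1 : 1 ≤ 2 ^ d := Nat.one_le_two_pow
    have h2 : 7 * ((T + 1) * 2 ^ d) = (3 * 2 + 1) * (T * 2 ^ d) + 7 * 2 ^ d := by ring
    rw [h2]
    omega
  refine ⟨?_, ?_, ?_, ?_, ?_⟩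
  · intro m d hd u
    exact ⟨out_le hd u, in_le hd u⟩
  · intro T d m n hn hm hd hT ρ _ _ o
    exact ⟨fun p h => (lawMin hn hm hd hT p o h).2, fun p h => (lawSum hn hm hd hT p o h).2⟩
  · intro R _ T m d hd
    exact hup R T m d hd
  · intro ε hε hε1
    obtain ⟨d₀, hd₀⟩ := exists_large ε hε
    refine ⟨ε ^ 2 / 576, by positivity, ?_⟩
    have hlarge : ∀ᶠ d : ℕ in atTop, d₀ ≤ (d : ℝ) :=
      tendsto_natCast_atTop_atTop.eventually_ge_atTop d₀
    filter_upwards [hlarge, eventually_ge_atTop 1] with d hd hd1
    intro T N hT hN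
    obtain ⟨n, hn⟩ : ∃ n, n = ⌈(2 : ℝ) ^ (ε / 2 * d)⌉₊ := ⟨_, rfl⟩
    rw [← hn] at hT
    have hn1 : 1 ≤ n := by
      rw [hn, Nat.one_le_ceil_iff]
      positivity
    rw [hcard] at hN
    obtain ⟨s1, s2⟩ := steps_ge hε hε1 hd₀ hd hn (N := N) (by rw [hN, hT])
    refine ⟨?_, ?_⟩
    · intro ρ _ _ o hK
      refine ⟨fun p h => ?_, fun p h => ?_⟩
      · obtain ⟨h1, h2⟩ := lawMin hn1 (by norm_num) hd1 hT.ge p o h
        exact s1 _ _ h1 hK h2
      · obtain ⟨h1, h2⟩ := lawSum hn1 (by norm_num) hd1 hT.ge p o h
        exact s1 _ _ h1 hK h2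
    · intro R _
      obtain ⟨p, h1, h2⟩ := hup R T 2 d hd1
      refine ⟨Option (Bool × Word 2 d), inferInstance, inferInstance, none, p, ?_, ?_, h2⟩
      · rw [hreg]
        push_cast
        exact s2
      · rw [hN]
        exact h1.trans (hlen T d)
  · intro a
    refine ⟨11 + 36 * max a 1 + Real.logb 2 (24 * max a 1), ?_⟩
    filter_upwards [eventually_ge_atTop 100] with d hd
    intro T N hT hN
    obtain ⟨n, hn⟩ : ∃ n, n = 2 ^ ⌈Real.sqrt d⌉₊ := ⟨_, rfl⟩
    rw [← hn] at hT
    have hn1 : 1 ≤ n := by
      rw [hn]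
      exact Nat.one_le_two_pow
    rw [hcard] at hN
    obtain ⟨s1, s2⟩ := regs_ge (le_max_right a 1) hd hn (N := N) (by rw [hN, hT])
    have hN1 : (1 : ℝ) ≤ N := by
      have : 1 ≤ N := by
        rw [hN]
        exact Nat.mul_pos (by omega) (by positivity)
      exact_mod_cast this
    have ha : (N : ℝ) ^ a ≤ (N : ℝ) ^ (max a 1) :=
      Real.rpow_le_rpow_of_exponent_le hN1 (le_max_left _ _)
    refine ⟨?_, ?_⟩
    · intro ρ _ _ o
      have hK : 1 ≤ Fintype.card ρ := Fintype.card_pos_iff.2 ⟨o⟩
      refine ⟨fun p h hL => ?_, fun p h hL => ?_⟩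
      · obtain ⟨h1, h2⟩ := lawMin hn1 (by norm_num) (by omega) hT.ge p o h
        exact s1 _ _ h1 hK (hL.trans ha) h2
      · obtain ⟨h1, h2⟩ := lawSum hn1 (by norm_num) (by omega) hT.ge p o h
        exact s1 _ _ h1 hK (hL.trans ha) h2
    · intro R _
      obtain ⟨p, h1, h2⟩ := hup R T 2 d (by omega)
      refine ⟨Option (Bool × Word 2 d), inferInstance, inferInstance, none, p, ?_, ?_, h2⟩
      · rw [hreg]
        push_cast
        exact s2
      · rw [hN]
        exact h1.trans (hlen T d)

end Pool.Agent.Results.MP_e46137_lc.SparseShortestPaths
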